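import Mathlib

set_option autoImplicit false

/-!
# A theorem of Titchmarsh type for entire functions bounded in the right half plane

The lemmas up to `two_fun` are taken from the starting library (`Pool.Agent.Helper919.Volt.L5`).
-/

namespace Pool.Agent.Y279.VT

open MeasureTheory Set Filter Topology

theorem h01_normsq (a u : ℂ) (R : ℝ) (hR : 0 < R) :
    ‖((R : ℂ) ^ 2 - (starRingEnd ℂ) a * u) / (R : ℂ)‖ ^ 2 - ‖u - a‖ ^ 2
      = (R ^ 2 - ‖u‖ ^ 2) * (R ^ 2 - ‖a‖ ^ 2) / R ^ 2 := by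
  have hR0 : R ≠ 0 := hR.ne'
  rw [norm_div, div_pow, ← Complex.normSq_eq_norm_sq, ← Complex.normSq_eq_norm_sq,
    ← Complex.normSq_eq_norm_sq, ← Complex.normSq_eq_norm_sq, ← Complex.normSq_eq_norm_sq]
  have h1 : ((R : ℂ) ^ 2) = ((R ^ 2 : ℝ) : ℂ) := by push_cast; rfl
  rw [h1, Complex.normSq_ofReal]
  simp only [Complex.normSq_apply, Complex.sub_re, Complex.sub_im, Complex.mul_re, Complex.mul_im,
    Complex.conj_re, Complex.conj_im, Complex.ofReal_re, Complex.ofReal_im]
  field_simp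
  ring

theorem h01_lin {c w ρ : ℂ} {R : ℝ} (hR : 0 < R) (hρ : ρ ∈ Metric.closedBall c R)
    (hw : w ∈ Metric.ball c R) (hne : w ≠ ρ) :
    Real.log ‖w - ρ‖ ≤ Real.circleAverage
      ((Complex.re ∘ herglotzRieszKernel c w) * (fun z => Real.log ‖z - ρ‖)) c R := by
  rcases eq_or_lt_of_le (Metric.mem_closedBall.1 hρ) with h | h
  · have h' : ρ ∈ Metric.sphere c R := h
    exact (circleAverage_re_herglotzRieszKernel_mul_log h' hw).ge
  · have ha : ‖ρ - c‖ < R := by rwa [dist_eq_norm] at h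
    set q : ℂ → ℂ := fun z => ((R : ℂ) ^ 2 - (starRingEnd ℂ) (ρ - c) * (z - c)) / (R : ℂ) with hq
    have hRC : (R : ℂ) ≠ 0 := by exact_mod_cast hR.ne'
    have hq0 : ∀ z ∈ Metric.closedBall c R, q z ≠ 0 := by
      intro z hz h0
      have hz' : ‖z - c‖ ≤ R := by simpa [dist_eq_norm] using hz
      have h2 : (R : ℂ) ^ 2 - (starRingEnd ℂ) (ρ - c) * (z - c) = 0 := by
        rcases div_eq_zero_iff.1 h0 with h3 | h3
        · exact h3
        · exact absurd h3 hRC
      have h3 : ‖(R : ℂ) ^ 2‖ = ‖(starRingEnd ℂ) (ρ - c) * (z - c)‖ := by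
        rw [sub_eq_zero.1 h2]
      rw [norm_mul, norm_pow, RCLike.norm_conj, Complex.norm_real, Real.norm_eq_abs,
        abs_of_pos hR] at h3
      have h4 : ‖ρ - c‖ * ‖z - c‖ ≤ ‖ρ - c‖ * R := by gcongr
      nlinarith
    have hqa : ∀ z, AnalyticAt ℂ q z := by
      intro z
      apply AnalyticAt.div _ analyticAt_const hRC
      fun_prop
    have hharm : InnerProductSpace.HarmonicOnNhd (fun z => Real.log ‖q z‖)
        (Metric.closedBall c R) := by
      intro z hz
      exact (hqa z).harmonicAt_log_norm (hq0 z hz)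
    have hP := InnerProductSpace.HarmonicOnNhd.circleAverage_re_herglotzRieszKernel_smul hharm hw
    have hsq : Real.circleAverage
        ((Complex.re ∘ herglotzRieszKernel c w) * (fun z => Real.log ‖z - ρ‖)) c R
        = Real.circleAverage
        ((Complex.re ∘ herglotzRieszKernel c w) • (fun z => Real.log ‖q z‖)) c R := by
      apply Real.circleAverage_congr_sphere
      intro z hz
      rw [abs_of_pos hR, mem_sphere_iff_norm] at hz
      have h5 := h01_normsq (ρ - c) (z - c) R hR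
      rw [hz] at h5
      have h6 : ‖q z‖ ^ 2 = ‖z - ρ‖ ^ 2 := by
        have h7 : z - c - (ρ - c) = z - ρ := by ring
        rw [h7] at h5
        simp only [sub_self, zero_mul, zero_div] at h5
        simp only [hq]
        linarith
      have h8 : ‖q z‖ = ‖z - ρ‖ := by
        exact (pow_left_inj₀ (norm_nonneg _) (norm_nonneg _) two_ne_zero).1 h6
      simp only [Pi.mul_apply, Pi.smul_apply', smul_eq_mul, h8]
    rw [hsq, hP]
    apply Real.log_le_log (norm_pos_iff.2 (sub_ne_zero.2 hne))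
    have hw' : ‖w - c‖ < R := by simpa [dist_eq_norm] using hw
    have h5 := h01_normsq (ρ - c) (w - c) R hR
    have h7 : w - c - (ρ - c) = w - ρ := by ring
    rw [h7] at h5
    have h9 : 0 ≤ (R ^ 2 - ‖w - c‖ ^ 2) * (R ^ 2 - ‖ρ - c‖ ^ 2) / R ^ 2 := by
      apply div_nonneg _ (by positivity)
      apply mul_nonneg
      · have := norm_nonneg (w - c)
        nlinarith
      · have := norm_nonneg (ρ - c)
        nlinarith
    have h10 : ‖w - ρ‖ ^ 2 ≤ ‖q w‖ ^ 2 := by
      simp only [hq]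
      linarith
    exact (pow_le_pow_iff_left₀ (norm_nonneg _) (norm_nonneg _) two_ne_zero).1 h10

theorem h01_kcont {c w : ℂ} {R : ℝ} (hw : w ∈ Metric.ball c R) :
    ContinuousOn (Complex.re ∘ herglotzRieszKernel c w) (Metric.sphere c |R|) :=
  Complex.continuous_re.comp_continuousOn (continuousOn_herglotzRieszKernel_sphere hw)

theorem h01_kint {c w : ℂ} {R : ℝ} (hw : w ∈ Metric.ball c R) {f : ℂ → ℝ}
    (hf : CircleIntegrable f c R) :
    CircleIntegrable ((Complex.re ∘ herglotzRieszKernel c w) * f) c R := by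
  have := hf.continuousOn_smul (h01_kcont hw)
  exact this

theorem h01_poisson {c w : ℂ} {R : ℝ} (hR : 0 < R) {f : ℂ → ℂ}
    (hf : AnalyticOnNhd ℂ f (Metric.closedBall c R))
    (hw : w ∈ Metric.ball c R) (hfw : f w ≠ 0) :
    Real.log ‖f w‖ ≤ Real.circleAverage
      ((Complex.re ∘ herglotzRieszKernel c w) * (fun z => Real.log ‖f z‖)) c R := by
  have hwc : w ∈ Metric.closedBall c R := Metric.ball_subset_closedBall hw
  set U := Metric.closedBall c R with hU
  have hmer : MeromorphicOn f U := hf.meromorphicOn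
  -- orders are finite
  have hord : ∀ u : U, meromorphicOrderAt f u ≠ ⊤ := by
    have hpre : IsPreconnected U := (convex_closedBall c R).isPreconnected
    have hw0 : meromorphicOrderAt f w ≠ ⊤ := by
      rw [(hf w hwc).meromorphicOrderAt_eq]
      have : analyticOrderAt f w = 0 := by
        rw [(hf w hwc).analyticOrderAt_eq_zero]; exact hfw
      rw [this]; simp
    intro u
    exact hmer.meromorphicOrderAt_ne_top_of_isPreconnected hpre hwc u.2 hw0
  have hfin : (MeromorphicOn.divisor f U).support.Finite :=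
    (MeromorphicOn.divisor f U).finiteSupport (isCompact_closedBall c R)
  obtain ⟨g, hg, hg0, hfg⟩ := hmer.extract_zeros_poles hord hfin
  have hD0 : ∀ u, 0 ≤ MeromorphicOn.divisor f U u := by
    intro u
    exact MeromorphicOn.AnalyticOnNhd.divisor_nonneg hf u
  have hDmem : ∀ u, MeromorphicOn.divisor f U u ≠ 0 → u ∈ U := by
    intro u hu
    exact (MeromorphicOn.divisor f U).supportWithinDomain hu
  set D : ℂ → ℤ := fun u => MeromorphicOn.divisor f U u with hD
  set S := hfin.toFinset with hS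
  have hSmem : ∀ u, u ∈ S ↔ D u ≠ 0 := by
    intro u
    simp [hS, hD]
  -- factorization with natural powers
  set F : ℂ → ℂ := fun z => (∏ u ∈ S, (z - u) ^ (D u).toNat) * g z with hF
  have hfF : ((∏ᶠ u, (· - u) ^ MeromorphicOn.divisor f U u) • g : ℂ → ℂ) = F := by
    funext z
    have h1 : (∏ᶠ u, (fun z : ℂ => z - u) ^ MeromorphicOn.divisor f U u : ℂ → ℂ)
        = ∏ u ∈ S, (fun z : ℂ => z - u) ^ MeromorphicOn.divisor f U u := by
      apply finprod_eq_prod_of_mulSupport_subset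
      intro u hu
      rw [Finset.mem_coe, hSmem]
      intro h0
      apply hu
      have : MeromorphicOn.divisor f U u = 0 := h0
      simp [this]
    have h2 : ((∏ᶠ u, (fun z : ℂ => z - u) ^ MeromorphicOn.divisor f U u) • g : ℂ → ℂ) z
        = (∏ᶠ u, (fun z : ℂ => z - u) ^ MeromorphicOn.divisor f U u : ℂ → ℂ) z * g z := rfl
    rw [h2, h1, hF, Finset.prod_apply]
    congr 1
    apply Finset.prod_congr rfl
    intro u _
    have h3 : MeromorphicOn.divisor f U u = ((D u).toNat : ℤ) := (Int.toNat_of_nonneg (hD0 u)).symm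
    rw [Pi.pow_apply, h3, zpow_natCast]
  have hwint : U ∈ 𝓝 w := mem_of_superset (Metric.isOpen_ball.mem_nhds hw)
    Metric.ball_subset_closedBall
  have hfFw : f w = F w := by
    have h1 : ∀ᶠ z in 𝓝[≠] w, f z = F z := by
      rw [hfF] at hfg
      have h2 : {z | f z = F z} ∈ codiscreteWithin U := hfg
      rw [mem_codiscreteWithin] at h2
      have h3 := h2 w hwc
      rw [Filter.disjoint_principal_right] at h3
      filter_upwards [h3, mem_nhdsWithin_of_mem_nhds hwint] with z hz1 hz2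
      by_contra h4
      exact hz1 ⟨hz2, h4⟩
    have hc1 : Tendsto f (𝓝[≠] w) (𝓝 (f w)) :=
      (hf w hwc).continuousAt.tendsto.mono_left nhdsWithin_le_nhds
    have hFc : ContinuousAt F w := by
      apply ContinuousAt.mul
      · fun_prop
      · exact (hg w hwc).continuousAt
    have hc2 : Tendsto F (𝓝[≠] w) (𝓝 (F w)) := hFc.tendsto.mono_left nhdsWithin_le_nhds
    exact tendsto_nhds_unique hc1 (hc2.congr' (h1.mono fun z hz => hz.symm))
  have hne : ∀ u ∈ S, w ≠ u := by
    intro u hu h0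
    apply hfw
    rw [hfFw, hF]
    have h1 : (w - u) ^ (D u).toNat = 0 := by
      rw [h0, sub_self]
      apply zero_pow
      have h2 := (hSmem u).1 hu
      have h3 := hD0 u
      have h4 : 0 < D u := lt_of_le_of_ne h3 (Ne.symm h2)
      have := Int.toNat_of_nonneg h3
      simp only [hD] at *
      omega
    simp only [mul_eq_zero]
    left
    exact Finset.prod_eq_zero hu h1
  have hlogw : Real.log ‖f w‖ = ∑ u ∈ S, (D u : ℝ) * Real.log ‖w - u‖ + Real.log ‖g w‖ := by
    rw [hfFw, hF]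
    simp only [norm_mul, norm_prod, norm_pow]
    rw [Real.log_mul, Real.log_prod]
    · congr 1
      apply Finset.sum_congr rfl
      intro u _
      rw [Real.log_pow]
      congr 1
      have := Int.toNat_of_nonneg (hD0 u)
      exact_mod_cast this
    · intro u hu
      exact pow_ne_zero _ (norm_ne_zero_iff.2 (sub_ne_zero.2 (hne u hu)))
    · apply Finset.prod_ne_zero_iff.2
      intro u hu
      exact pow_ne_zero _ (norm_ne_zero_iff.2 (sub_ne_zero.2 (hne u hu)))
    · exact norm_ne_zero_iff.2 (hg0 ⟨w, hwc⟩)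
  -- log identity on the circle
  have hlogc := MeromorphicOn.extract_zeros_poles_log hg0 hfg
  have hsum : (∑ᶠ u, (MeromorphicOn.divisor f U u * Real.log ‖· - u‖) : ℂ → ℝ)
      = ∑ u ∈ S, (fun z : ℂ => (D u : ℝ) * Real.log ‖z - u‖) := by
    apply finsum_eq_sum_of_support_subset
    intro u hu
    rw [Finset.mem_coe, hSmem]
    intro h0
    apply hu
    have h1 : MeromorphicOn.divisor f U u = 0 := h0
    funext z
    simp [h1]
  rw [hsum] at hlogc
  have hcodS : ((Complex.re ∘ herglotzRieszKernel c w) * (fun z => Real.log ‖f z‖))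
      =ᶠ[codiscreteWithin (Metric.sphere c |R|)]
      (∑ u ∈ S, (fun z : ℂ => (D u : ℝ) • ((Complex.re ∘ herglotzRieszKernel c w) *
        (fun z => Real.log ‖z - u‖)) z))
        + (Complex.re ∘ herglotzRieszKernel c w) * (fun z => Real.log ‖g z‖) := by
    have h1 : codiscreteWithin (Metric.sphere c |R|) ≤ codiscreteWithin U := by
      apply codiscreteWithin_mono
      rw [abs_of_pos hR]
      exact Metric.sphere_subset_closedBall
    filter_upwards [h1 hlogc] with z hz
    have hz' : Real.log ‖f z‖ = (∑ u ∈ S, (fun z : ℂ => (D u : ℝ) * Real.log ‖z - u‖)) z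
      + Real.log ‖g z‖ := hz
    simp only [Pi.mul_apply, Pi.add_apply, Finset.sum_apply, smul_eq_mul] at hz' ⊢
    rw [hz', _root_.mul_add, Finset.mul_sum]
    congr 1
    apply Finset.sum_congr rfl
    intro u _
    ring
  rw [Real.circleAverage_congr_codiscreteWithin hcodS hR.ne']
  have hgint : CircleIntegrable (fun z => Real.log ‖g z‖) c R := by
    apply MeromorphicOn.circleIntegrable_log_norm
    rw [abs_of_pos hR]
    exact (hg.mono Metric.sphere_subset_closedBall).meromorphicOn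
  have huint : ∀ u : ℂ, CircleIntegrable (fun z => Real.log ‖z - u‖) c R := by
    intro u
    apply MeromorphicOn.circleIntegrable_log_norm (f := fun z => z - u)
    intro z _
    fun_prop
  have hSint : ∀ u ∈ S, CircleIntegrable (fun z : ℂ => (D u : ℝ) •
      ((Complex.re ∘ herglotzRieszKernel c w) * (fun z => Real.log ‖z - u‖)) z) c R := by
    intro u _
    exact (h01_kint hw (huint u)).const_smul
  rw [Real.circleAverage_add (CircleIntegrable.sum S hSint) (h01_kint hw hgint),
    Real.circleAverage_sum hSint, hlogw]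
  have hharm : InnerProductSpace.HarmonicOnNhd (fun z => Real.log ‖g z‖)
      (Metric.closedBall c R) := by
    intro z hz
    exact (hg z hz).harmonicAt_log_norm (hg0 ⟨z, hz⟩)
  have hP := InnerProductSpace.HarmonicOnNhd.circleAverage_re_herglotzRieszKernel_smul hharm hw
  have hP' : Real.circleAverage
      ((Complex.re ∘ herglotzRieszKernel c w) * (fun z => Real.log ‖g z‖)) c R
      = Real.log ‖g w‖ := hP
  rw [hP']
  gcongr with u hu
  rw [Real.circleAverage_fun_smul, smul_eq_mul]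
  apply mul_le_mul_of_nonneg_left
  · exact h01_lin hR (hDmem u ((hSmem u).1 hu)) hw (hne u hu)
  · exact_mod_cast hD0 u

theorem harnack_jensen {c w : ℂ} {R : ℝ} (hR : 0 < R) {f : ℂ → ℂ}
    (hf : AnalyticOnNhd ℂ f (Metric.closedBall c R))
    (hb : ∀ z ∈ Metric.closedBall c R, ‖f z‖ ≤ 1) (hw : w ∈ Metric.ball c R) (hfw : f w ≠ 0) :
    Real.log ‖f w‖ ≤ (R - ‖w - c‖) / (R + ‖w - c‖) *
      Real.circleAverage (fun z => Real.log ‖f z‖) c R := by
  have h1 := h01_poisson hR hf hw hfw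
  have hint : CircleIntegrable (fun z => Real.log ‖f z‖) c R := by
    apply MeromorphicOn.circleIntegrable_log_norm
    rw [abs_of_pos hR]
    exact (hf.mono Metric.sphere_subset_closedBall).meromorphicOn
  refine h1.trans ?_
  have h2 : (R - ‖w - c‖) / (R + ‖w - c‖) * Real.circleAverage (fun z => Real.log ‖f z‖) c R
      = Real.circleAverage (fun z => ((R - ‖w - c‖) / (R + ‖w - c‖)) • Real.log ‖f z‖) c R := by
    rw [Real.circleAverage_fun_smul]
    rfl
  rw [h2]
  apply Real.circleAverage_mono (h01_kint hw hint)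
  · exact hint.const_smul
  · intro z hz
    rw [abs_of_pos hR] at hz
    have h3 := le_re_herglotzRieszKernel hz hw
    have h4 : Real.log ‖f z‖ ≤ 0 :=
      Real.log_nonpos (norm_nonneg _) (hb z (Metric.sphere_subset_closedBall hz))
    simp only [Pi.mul_apply, Function.comp_apply, smul_eq_mul]
    exact mul_le_mul_of_nonpos_right h3 h4

theorem jensen_le {c : ℂ} {R : ℝ} (hR : 0 < R) {f : ℂ → ℂ}
    (hf : AnalyticOnNhd ℂ f (Metric.closedBall c R)) (hfc : f c ≠ 0) :
    Real.log ‖f c‖ ≤ Real.circleAverage (fun z => Real.log ‖f z‖) c R := by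
  have habs : |R| = R := abs_of_pos hR
  have hf' : AnalyticOnNhd ℂ f (Metric.closedBall c |R|) := by rw [habs]; exact hf
  have h := AnalyticOnNhd.circleAverage_log_norm hR.ne' hf' hfc
  rw [h]
  have hnn : 0 ≤ ∑ᶠ u, ((MeromorphicOn.divisor f (Metric.closedBall c |R|) u : ℤ) : ℝ) *
      Real.log (R * ‖c - u‖⁻¹) := by
    apply finsum_nonneg
    intro u
    by_cases hu : u ∈ Metric.closedBall c |R|
    · apply mul_nonneg
      · exact_mod_cast (MeromorphicOn.AnalyticOnNhd.divisor_nonneg hf') u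
      · by_cases hcu : c = u
        · rw [hcu, sub_self, norm_zero, inv_zero, mul_zero, Real.log_zero]
        · apply Real.log_nonneg
          have h1 : 0 < ‖c - u‖ := norm_pos_iff.2 (sub_ne_zero.2 hcu)
          rw [← div_eq_mul_inv, one_le_div h1]
          rw [Metric.mem_closedBall, dist_comm, dist_eq_norm, habs] at hu
          exact hu
    · rw [Function.locallyFinsuppWithin.apply_eq_zero_of_notMem _ hu]
      simp
  linarith

theorem h03_avg (x L b : ℝ) :
    Real.circleAverage (fun z : ℂ => L - b * z.re) (x : ℂ) x = L - b * x := by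
  have h1 : ∀ θ : ℝ, L - b * (circleMap (x : ℂ) x θ).re = (L - b * x) - b * x * Real.cos θ := by
    intro θ
    have h2 : (circleMap (x : ℂ) x θ).re = x + x * Real.cos θ := by
      rw [circleMap, Complex.add_re, Complex.ofReal_re, Complex.re_ofReal_mul,
        Complex.exp_ofReal_mul_I_re]
    rw [h2]
    ring
  rw [Real.circleAverage_def]
  simp only [h1]
  rw [intervalIntegral.integral_sub (by simp) (by
    apply Continuous.intervalIntegrable
    fun_prop)]
  rw [intervalIntegral.integral_const, intervalIntegral.integral_const_mul, integral_cos]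
  simp only [Real.sin_two_pi, Real.sin_zero, sub_zero, mul_zero, smul_eq_mul]
  have := Real.pi_pos
  field_simp

theorem h03_codiscrete (c : ℂ) (R : ℝ) (f : ℂ → ℂ) (hf : Differentiable ℂ f) (w : ℂ)
    (hw : f w ≠ 0) : ∀ᶠ z in codiscreteWithin (Metric.sphere c |R|), f z ≠ 0 := by
  have h1 : AnalyticOnNhd ℂ f Set.univ := fun z _ => hf.analyticAt z
  rcases h1.eqOn_zero_or_eventually_ne_zero_of_preconnected isPreconnected_univ with h2 | h2
  · exact absurd (h2 (Set.mem_univ w)) hw
  · exact codiscreteWithin_mono (Set.subset_univ _) h2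

theorem h03_point (H K : ℂ → ℂ) (hH : Differentiable ℂ H) (hK : Differentiable ℂ K)
    (bH : ∀ z : ℂ, 0 ≤ z.re → ‖H z‖ ≤ 1) (bK : ∀ z : ℂ, 0 ≤ z.re → ‖K z‖ ≤ 1) (b Q : ℝ)
    (hQ : 0 < Q)
    (hHK : ∀ z : ℂ, 0 ≤ z.re → ‖H z * K z‖ ≤ Q * Real.exp (-(b * z.re)))
    (ε : ℝ) (n : ℝ) (hn : 0 < n) (hKn : K (n : ℂ) ≠ 0) (x : ℝ) (hx : n < x)
    (hx2 : Real.exp (-(ε * x)) ≤ ‖H (x : ℂ)‖) :
    Real.log ‖K (n : ℂ)‖ ≤ n / (2 * x - n) * (Real.log Q - b * x + ε * x) := by
  have hx0 : 0 < x := hn.trans hx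
  have hball : ∀ z ∈ Metric.closedBall (x : ℂ) x, 0 ≤ z.re := by
    intro z hz
    rw [Metric.mem_closedBall, dist_eq_norm] at hz
    have h1 := (Complex.abs_re_le_norm (z - x)).trans hz
    rw [Complex.sub_re, Complex.ofReal_re] at h1
    have := (abs_le.1 h1).1
    linarith
  have hHx : H (x : ℂ) ≠ 0 := by
    intro h1
    rw [h1, norm_zero] at hx2
    exact absurd hx2 (not_le.2 (Real.exp_pos _))
  -- Jensen for `H`
  have hL1 : -(ε * x) ≤ Real.circleAverage (fun z => Real.log ‖H z‖) x x := by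
    have h1 := jensen_le hx0 (fun z _ => hH.analyticAt z) hHx
    refine le_trans ?_ h1
    rw [Real.le_log_iff_exp_le (norm_pos_iff.2 hHx)]
    exact hx2
  have iH : CircleIntegrable (fun z => Real.log ‖H z‖) (x : ℂ) x :=
    MeromorphicOn.circleIntegrable_log_norm (fun z _ => (hH.analyticAt z).meromorphicAt)
  have iK : CircleIntegrable (fun z => Real.log ‖K z‖) (x : ℂ) x :=
    MeromorphicOn.circleIntegrable_log_norm (fun z _ => (hK.analyticAt z).meromorphicAt)
  classical
  let G : ℂ → ℝ := fun z => if H z ≠ 0 ∧ K z ≠ 0 then Real.log ‖H z‖ + Real.log ‖K z‖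
    else Real.log Q - b * z.re
  have hG : (fun z => Real.log ‖H z‖ + Real.log ‖K z‖)
      =ᶠ[codiscreteWithin (Metric.sphere (x : ℂ) |x|)] G := by
    filter_upwards [h03_codiscrete x x H hH x hHx, h03_codiscrete x x K hK n hKn] with z h1 h2
    exact (if_pos ⟨h1, h2⟩).symm
  have iHK : CircleIntegrable (fun z => Real.log ‖H z‖ + Real.log ‖K z‖) (x : ℂ) x := iH.add iK
  have iG : CircleIntegrable G (x : ℂ) x := iHK.congr_codiscreteWithin hG
  have hsum : Real.circleAverage (fun z => Real.log ‖H z‖) x x +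
      Real.circleAverage (fun z => Real.log ‖K z‖) x x ≤ Real.log Q - b * x := by
    rw [← Real.circleAverage_fun_add iH iK, Real.circleAverage_congr_codiscreteWithin hG hx0.ne',
      ← h03_avg x (Real.log Q) b]
    refine Real.circleAverage_mono iG ?_ ?_
    · apply ContinuousOn.circleIntegrable'
      fun_prop
    · intro z hz
      show (if H z ≠ 0 ∧ K z ≠ 0 then Real.log ‖H z‖ + Real.log ‖K z‖
        else Real.log Q - b * z.re) ≤ Real.log Q - b * z.re
      split_ifs with h1
      · have hz' : 0 ≤ z.re := by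
          apply hball
          rw [abs_of_pos hx0] at hz
          exact Metric.sphere_subset_closedBall hz
        have h2 := hHK z hz'
        rw [← Real.log_mul (norm_ne_zero_iff.2 h1.1) (norm_ne_zero_iff.2 h1.2), ← norm_mul]
        have h3 : 0 < ‖H z * K z‖ := norm_pos_iff.2 (mul_ne_zero h1.1 h1.2)
        have h4 := Real.log_le_log h3 h2
        rw [Real.log_mul hQ.ne' (Real.exp_pos _).ne', Real.log_exp] at h4
        linarith
      · exact le_rfl
  have hn1 : ‖(n : ℂ) - (x : ℂ)‖ = x - n := by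
    rw [← Complex.ofReal_sub, Complex.norm_real, Real.norm_eq_abs, abs_of_neg (by linarith)]
    ring
  have hk := harnack_jensen (c := (x : ℂ)) (w := (n : ℂ)) (R := x) hx0
    (fun z _ => hK.analyticAt z) (fun z hz => bK z (hball z hz)) (by
      rw [Metric.mem_ball, dist_eq_norm, hn1]
      linarith) hKn
  rw [hn1] at hk
  have e1 : (x - (x - n)) / (x + (x - n)) = n / (2 * x - n) := by
    congr 1 <;> ring
  rw [e1] at hk
  refine hk.trans ?_
  have h5 : 0 ≤ n / (2 * x - n) := by
    apply div_nonneg hn.le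
    linarith
  apply mul_le_mul_of_nonneg_left _ h5
  linarith

theorem h03_lim (n L b ε : ℝ) :
    Tendsto (fun x : ℝ => n / (2 * x - n) * (L - b * x + ε * x)) atTop
      (𝓝 (-((b - ε) * n / 2))) := by
  have h1 : Tendsto (fun x : ℝ => x⁻¹) atTop (𝓝 0) := tendsto_inv_atTop_zero
  have h2 : Tendsto (fun x : ℝ => n / (2 - n * x⁻¹) * (L * x⁻¹ - b + ε)) atTop
      (𝓝 (n / (2 - n * 0) * (L * 0 - b + ε))) := by
    refine Tendsto.mul (Tendsto.div tendsto_const_nhds
      (tendsto_const_nhds.sub (h1.const_mul n)) (by norm_num)) ?_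
    exact ((h1.const_mul L).sub_const b).add_const ε
  have e : n / (2 - n * 0) * (L * 0 - b + ε) = -((b - ε) * n / 2) := by ring
  rw [e] at h2
  refine h2.congr' ?_
  filter_upwards [eventually_gt_atTop (max 0 n)] with x hx
  have hx0 : 0 < x := (le_max_left _ _).trans_lt hx
  have hxn : n < x := (le_max_right _ _).trans_lt hx
  have h3 : 2 * x - n ≠ 0 := by
    have : 0 < 2 * x - n := by linarith
    exact this.ne'
  have h4 : 2 - n * x⁻¹ = (2 * x - n) / x := by field_simp
  rw [h4]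
  field_simp

theorem two_fun (H K : ℂ → ℂ) (hH : Differentiable ℂ H) (hK : Differentiable ℂ K)
    (bH : ∀ z : ℂ, 0 ≤ z.re → ‖H z‖ ≤ 1) (bK : ∀ z : ℂ, 0 ≤ z.re → ‖K z‖ ≤ 1) (b Q : ℝ)
    (hb : 0 < b) (hQ : 0 < Q)
    (hHK : ∀ z : ℂ, 0 ≤ z.re → ‖H z * K z‖ ≤ Q * Real.exp (-(b * z.re)))
    (hlarge : ∀ ε > 0, ∀ A : ℝ, ∃ x : ℝ, A < x ∧ Real.exp (-(ε * x)) ≤ ‖H (x : ℂ)‖)
    (n : ℝ) (hn : 0 ≤ n) : ‖K (n : ℂ)‖ ≤ Real.exp (-(b * n / 2)) := by
  rcases hn.eq_or_lt with h0 | hn0
  · subst h0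
    refine (bK _ (by simp)).trans (le_of_eq ?_)
    simp
  by_cases hKn : K (n : ℂ) = 0
  · rw [hKn, norm_zero]
    exact (Real.exp_pos _).le
  have hpos : 0 < ‖K (n : ℂ)‖ := norm_pos_iff.2 hKn
  rw [← Real.log_le_iff_le_exp hpos]
  have key : ∀ ε : ℝ, 0 < ε → Real.log ‖K (n : ℂ)‖ ≤ -((b - ε) * n / 2) := by
    intro ε hε
    have h1 : ∃ᶠ x : ℝ in atTop, Real.log ‖K (n : ℂ)‖ ≤
        n / (2 * x - n) * (Real.log Q - b * x + ε * x) := by
      rw [frequently_atTop]
      intro A
      obtain ⟨x, hx1, hx2⟩ := hlarge ε hε (max A n)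
      exact ⟨x, (le_max_left A n).trans hx1.le,
        h03_point H K hH hK bH bK b Q hQ hHK ε n hn0 hKn x ((le_max_right A n).trans_lt hx1) hx2⟩
    have h2 := h03_lim n (Real.log Q) b ε
    exact ge_of_tendsto_of_frequently h2 h1
  have h3 : Tendsto (fun ε : ℝ => -((b - ε) * n / 2)) (𝓝[>] 0) (𝓝 (-((b - 0) * n / 2))) := by
    have h4 : Continuous (fun ε : ℝ => -((b - ε) * n / 2)) := by fun_prop
    exact (h4.tendsto 0).mono_left nhdsWithin_le_nhds
  rw [sub_zero] at h3
  exact ge_of_tendsto h3 (eventually_mem_nhdsWithin.mono fun ε hε => key ε hε)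


/-- the Phragmén-Lindelöf principle in the right half plane, for entire functions of exponential
type -/
theorem pl_half {f : ℂ → ℂ} (hf : Differentiable ℂ f) {B C K : ℝ}
    (hexp : ∀ z : ℂ, 0 ≤ z.re → ‖f z‖ ≤ B * Real.exp (C * ‖z‖))
    {K' A : ℝ} (hre : ∀ x : ℝ, A ≤ x → ‖f x‖ ≤ K')
    (him : ∀ x : ℝ, ‖f (x * Complex.I)‖ ≤ K) {z : ℂ} (hz : 0 ≤ z.re) : ‖f z‖ ≤ K := by
  refine PhragmenLindelof.right_half_plane_of_bounded_on_real hf.diffContOnCl
    ⟨1, by norm_num, C, ?_⟩ ?_ him hz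
  · refine Asymptotics.IsBigO.of_bound B ?_
    rw [eventually_inf_principal]
    refine Eventually.of_forall fun w hw => ?_
    have h1 := hexp w (le_of_lt hw)
    rw [Real.norm_eq_abs, abs_of_pos (Real.exp_pos _), Real.rpow_one]
    exact h1
  · exact ⟨K', by
      rw [eventually_map]
      filter_upwards [eventually_ge_atTop A] with x hx
      exact hre x hx⟩

/-- one step -/
theorem titch_step {H W : ℂ → ℂ} (hH : Differentiable ℂ H) (hW : Differentiable ℂ W)
    (bH : ∀ z : ℂ, 0 ≤ z.re → ‖H z‖ ≤ 1) (Q : ℝ) (hQ : 0 < Q)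
    (hHW : ∀ z : ℂ, 0 ≤ z.re → ‖H z * W z‖ ≤ Q * Real.exp (-z.re))
    (hlarge : ∀ ε > 0, ∀ A : ℝ, ∃ x : ℝ, A < x ∧ Real.exp (-(ε * x)) ≤ ‖H (x : ℂ)‖)
    {c : ℝ} (hc : c < 1)
    (bW : ∀ z : ℂ, 0 ≤ z.re → ‖W z‖ ≤ Real.exp (-(c * z.re))) :
    ∀ z : ℂ, 0 ≤ z.re → ‖W z‖ ≤ Real.exp (-((c + (1 - c) / 2) * z.re)) := by
  set K : ℂ → ℂ := fun z => W z * Complex.exp (c * z) with hK
  have hKn : ∀ z, ‖K z‖ = ‖W z‖ * Real.exp (c * z.re) := by
    intro z
    simp only [hK]
    rw [norm_mul, Complex.norm_exp]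
    congr 2
    simp
  have dK : Differentiable ℂ K := by
    apply hW.mul
    fun_prop
  have bK : ∀ z : ℂ, 0 ≤ z.re → ‖K z‖ ≤ 1 := by
    intro z hz
    rw [hKn]
    calc ‖W z‖ * Real.exp (c * z.re) ≤ Real.exp (-(c * z.re)) * Real.exp (c * z.re) :=
          mul_le_mul_of_nonneg_right (bW z hz) (Real.exp_pos _).le
      _ = 1 := by rw [← Real.exp_add]; simp
  have hHK : ∀ z : ℂ, 0 ≤ z.re → ‖H z * K z‖ ≤ Q * Real.exp (-((1 - c) * z.re)) := by
    intro z hz
    rw [norm_mul, hKn, ← mul_assoc, ← norm_mul]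
    calc ‖H z * W z‖ * Real.exp (c * z.re) ≤ (Q * Real.exp (-z.re)) * Real.exp (c * z.re) :=
          mul_le_mul_of_nonneg_right (hHW z hz) (Real.exp_pos _).le
      _ = Q * Real.exp (-((1 - c) * z.re)) := by
          rw [mul_assoc, ← Real.exp_add]
          congr 2
          ring
  have hreal := two_fun H K hH dK bH bK (1 - c) Q (by linarith) hQ hHK hlarge
  -- Phragmén-Lindelöf
  set G : ℂ → ℂ := fun z => K z * Complex.exp (((1 - c) / 2 : ℝ) * z) with hG
  have hGn : ∀ z, ‖G z‖ = ‖K z‖ * Real.exp ((1 - c) / 2 * z.re) := by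
    intro z
    simp only [hG]
    rw [norm_mul, Complex.norm_exp, Complex.re_ofReal_mul]
  have dG : Differentiable ℂ G := by
    apply dK.mul
    fun_prop
  intro z hz
  have h1 : ‖G z‖ ≤ 1 := by
    refine pl_half dG (B := 1) (C := (1 - c) / 2) (K := 1) (K' := 1) (A := 0) ?_ ?_ ?_ hz
    · intro w hw
      rw [hGn]
      apply mul_le_mul (bK w hw) _ (Real.exp_pos _).le zero_le_one
      apply Real.exp_le_exp.2
      exact mul_le_mul_of_nonneg_left (Complex.re_le_norm w) (by linarith)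
    · intro x hx
      rw [hGn]
      have h2 := hreal x hx
      calc ‖K x‖ * Real.exp ((1 - c) / 2 * (x : ℂ).re)
          ≤ Real.exp (-((1 - c) * x / 2)) * Real.exp ((1 - c) / 2 * (x : ℂ).re) :=
            mul_le_mul_of_nonneg_right h2 (Real.exp_pos _).le
        _ = 1 := by
            rw [← Real.exp_add, Complex.ofReal_re, ← Real.exp_zero]
            congr 1
            ring
    · intro x
      rw [hGn]
      have h2 : ((x : ℂ) * Complex.I).re = 0 := by simp
      rw [h2, mul_zero, Real.exp_zero, mul_one]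
      exact bK _ (by rw [h2])
  rw [hGn, hKn, mul_assoc, ← Real.exp_add] at h1
  have h2 : 0 < Real.exp (c * z.re + (1 - c) / 2 * z.re) := Real.exp_pos _
  rw [← le_div_iff₀ h2] at h1
  refine h1.trans (le_of_eq ?_)
  rw [one_div, ← Real.exp_neg]
  congr 1
  ring

/-- If `H` and `W` are entire functions, bounded in the right half plane, if `H W` is
`O(e^{-Re z})` there, and if `H` does not decay exponentially on the positive real axis, then `W` is
`O(e^{-Re z})` in the right half plane. -/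
theorem titch_entire {H W : ℂ → ℂ} (hH : Differentiable ℂ H) (hW : Differentiable ℂ W) {K : ℝ}
    (bH : ∀ z : ℂ, 0 ≤ z.re → ‖H z‖ ≤ K) (bW : ∀ z : ℂ, 0 ≤ z.re → ‖W z‖ ≤ K) {Q : ℝ}
    (hHW : ∀ z : ℂ, 0 ≤ z.re → ‖H z * W z‖ ≤ Q * Real.exp (-z.re))
    (hlarge : ∀ ε > 0, ∀ A : ℝ, ∃ x : ℝ, A < x ∧ Real.exp (-(ε * x)) ≤ ‖H (x : ℂ)‖) :
    ∃ K' : ℝ, ∀ z : ℂ, 0 ≤ z.re → ‖W z‖ ≤ K' * Real.exp (-z.re) := by
  have hK0 : 0 ≤ K := (norm_nonneg _).trans (bH 0 (by simp))
  have hQ0 : 0 ≤ Q := by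
    have := (norm_nonneg _).trans (hHW 0 (by simp))
    simpa using this
  set L : ℝ := K + 1 with hL
  have hL1 : 1 ≤ L := by linarith
  have hL0 : 0 < L := by linarith
  have hLC : (L : ℂ) ≠ 0 := by exact_mod_cast hL0.ne'
  set H1 : ℂ → ℂ := fun z => H z / L with hH1
  set W1 : ℂ → ℂ := fun z => W z / L with hW1
  have nH : ∀ z, ‖H1 z‖ = ‖H z‖ / L := by
    intro z
    simp only [hH1]
    rw [norm_div, Complex.norm_real, Real.norm_eq_abs, abs_of_pos hL0]
  have nW : ∀ z, ‖W1 z‖ = ‖W z‖ / L := by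
    intro z
    simp only [hW1]
    rw [norm_div, Complex.norm_real, Real.norm_eq_abs, abs_of_pos hL0]
  have dH1 : Differentiable ℂ H1 := hH.div_const _
  have dW1 : Differentiable ℂ W1 := hW.div_const _
  have b1 : ∀ z : ℂ, 0 ≤ z.re → ‖H1 z‖ ≤ 1 := by
    intro z hz
    rw [nH, div_le_one hL0]
    have := bH z hz
    linarith
  have b2 : ∀ z : ℂ, 0 ≤ z.re → ‖W1 z‖ ≤ 1 := by
    intro z hz
    rw [nW, div_le_one hL0]
    have := bW z hz
    linarith
  have b3 : ∀ z : ℂ, 0 ≤ z.re → ‖H1 z * W1 z‖ ≤ (Q + 1) * Real.exp (-z.re) := by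
    intro z hz
    have he := Real.exp_pos (-z.re)
    rw [norm_mul, nH, nW, div_mul_div_comm, ← norm_mul, div_le_iff₀ (by positivity)]
    have h2 := hHW z hz
    have h3 : 1 ≤ L * L := by nlinarith
    have h4 : 0 ≤ (Q + 1) * Real.exp (-z.re) := by positivity
    nlinarith
  have b4 : ∀ ε > 0, ∀ A : ℝ, ∃ x : ℝ, A < x ∧ Real.exp (-(ε * x)) ≤ ‖H1 (x : ℂ)‖ := by
    intro ε hε A
    obtain ⟨x, hx1, hx2⟩ := hlarge (ε / 2) (by linarith) (max A (2 * Real.log L / ε))
    refine ⟨x, (le_max_left _ _).trans_lt hx1, ?_⟩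
    have h3 := (le_max_right A (2 * Real.log L / ε)).trans_lt hx1
    rw [div_lt_iff₀ hε] at h3
    rw [nH, le_div_iff₀ hL0]
    refine le_trans ?_ hx2
    have h4 : L = Real.exp (Real.log L) := (Real.exp_log hL0).symm
    calc Real.exp (-(ε * x)) * L = Real.exp (-(ε * x) + Real.log L) := by
          rw [Real.exp_add, ← h4]
      _ ≤ Real.exp (-(ε / 2 * x)) := by
          apply Real.exp_le_exp.2
          nlinarith
  have key : ∀ k : ℕ, ∀ z : ℂ, 0 ≤ z.re →
      ‖W1 z‖ ≤ Real.exp (-((1 - (1 / 2) ^ k) * z.re)) := by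
    intro k
    induction k with
    | zero =>
      intro z hz
      simpa using b2 z hz
    | succ k ih =>
      intro z hz
      have hp : (0 : ℝ) < (1 / 2) ^ k := by positivity
      have h := titch_step dH1 dW1 b1 (Q + 1) (by linarith) b3 b4
        (c := 1 - (1 / 2) ^ k) (by linarith) ih z hz
      refine h.trans (le_of_eq ?_)
      congr 3
      rw [pow_succ]
      ring
  refine ⟨L, fun z hz => ?_⟩
  have hlim : Tendsto (fun k : ℕ => Real.exp (-((1 - (1 / 2 : ℝ) ^ k) * z.re))) atTop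
      (𝓝 (Real.exp (-((1 - 0) * z.re)))) := by
    have h1 : Tendsto (fun k : ℕ => (1 / 2 : ℝ) ^ k) atTop (𝓝 0) :=
      tendsto_pow_atTop_nhds_zero_of_lt_one (by norm_num) (by norm_num)
    exact (Real.continuous_exp.tendsto _).comp (((tendsto_const_nhds.sub h1).mul_const _).neg)
  have h2 := ge_of_tendsto' hlim fun k => key k z hz
  rw [nW, div_le_iff₀ hL0] at h2
  rw [mul_comm]
  simpa using h2

end Pool.Agent.Y279.VT
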