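import Mathlib
import Pool.Agent.Y279.VT.Wron

set_option autoImplicit false

/-!
# Elements of `M(0,1)`: exponential decay of the Laplace transform and supports, growth of powers
-/

namespace Pool.Agent.Y279.VT

open MeasureTheory Set Filter Topology
open scoped ENNReal NNReal
open Pool.Agent.Results.MP_81f94f_an.FlatRunsNotNormSequence

theorem Lap_tendsto_left {m : Measure ℝ} {R : ℝ} (hR : m (Ioo 0 R)ᶜ = 0) {h : ℝ → ℂ}
    (hh : Integrable h m) :
    Tendsto (fun x : ℝ => Lap m h (-x) * Complex.exp (-(x * R))) atTop (𝓝 0) := by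
  have h2 : ∀ᵐ t ∂m, t ∈ Ioo 0 R := by rw [ae_iff]; exact hR
  have key : Tendsto (fun x : ℝ => ∫ t, (Complex.exp (x * (t - R))) * h t ∂m) atTop
      (𝓝 (∫ t, (0 : ℂ) ∂m)) := by
    have hn : ∀ x t : ℝ, ‖Complex.exp ((x : ℂ) * (t - R))‖ = Real.exp (x * (t - R)) := by
      intro x t
      rw [Complex.norm_exp]
      congr 1
      have : (x : ℂ) * (t - R) = ((x * (t - R) : ℝ) : ℂ) := by push_cast; ring
      rw [this, Complex.ofReal_re]
    apply tendsto_integral_filter_of_dominated_convergence (fun t => ‖h t‖)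
    · filter_upwards with x
      exact (Continuous.aestronglyMeasurable (by fun_prop)).mul hh.aestronglyMeasurable
    · filter_upwards [eventually_ge_atTop 0] with x hx
      filter_upwards [h2] with t ht
      rw [norm_mul, hn]
      apply mul_le_of_le_one_left (norm_nonneg _)
      apply Real.exp_le_one_iff.2
      nlinarith [ht.2]
    · exact hh.norm
    · filter_upwards [h2] with t ht
      rw [tendsto_zero_iff_norm_tendsto_zero]
      simp_rw [norm_mul, hn]
      have h3 : Tendsto (fun x : ℝ => Real.exp (x * (t - R))) atTop (𝓝 0) := by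
        apply Real.tendsto_exp_atBot.comp
        exact tendsto_id.atTop_mul_const_of_neg (by linarith [ht.2])
      simpa using h3.mul_const ‖h t‖
  rw [integral_zero] at key
  refine key.congr fun x => ?_
  unfold Lap
  rw [← integral_mul_const]
  congr 1
  funext t
  rw [mul_right_comm, ← Complex.exp_add]
  congr 2
  ring

/-- if the transform of `c` decays exponentially on the positive axis, then `c` has no mass near
`0` -/
theorem support_of_decay {c : ComplexMeasure ℝ} [IsFiniteMeasure c.variation]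
    (hc : c.variation (Ioo 0 1)ᶜ = 0) {ε A : ℝ} (hε : 0 < ε)
    (hd : ∀ x : ℝ, A < x → ‖LC c x‖ ≤ Real.exp (-(ε * x))) :
    ∃ s : ℝ, 0 < s ∧ c.variation (Iio s) = 0 := by
  set s : ℝ := min ε 1 with hs
  have hs0 : 0 < s := lt_min hε one_pos
  have hs1 : s ≤ 1 := min_le_right _ _
  have hsε : s ≤ ε := min_le_left _ _
  refine ⟨s, hs0, ?_⟩
  obtain ⟨h, hh, -, hL⟩ := LC_eq_Lap c hc
  have eL : LC c = Lap c.variation h := funext hL
  set N : ℝ := ∫ t, ‖h t‖ ∂c.variation with hN
  have hN0 : 0 ≤ N := integral_nonneg fun _ => norm_nonneg _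
  have hNb : ∀ z : ℂ, 0 ≤ z.re → ‖LC c z‖ ≤ N := by
    intro z hz
    rw [eL]
    have := Lap_bound (M := 1) hc hh (z := z) (by
      intro t ht
      apply Real.exp_le_one_iff.2
      nlinarith [ht.1])
    simpa using this
  have dL : Differentiable ℂ (LC c) := by rw [eL]; exact Lap_differentiable hc hh
  -- decay in the half plane
  have hdec : ∀ z : ℂ, 0 ≤ z.re → ‖LC c z‖ ≤ N * Real.exp (-(s * z.re)) := by
    intro z hz
    have dG : Differentiable ℂ (fun z => LC c z * Complex.exp ((s : ℂ) * z)) := by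
      apply dL.mul
      fun_prop
    have nG : ∀ z : ℂ, ‖LC c z * Complex.exp ((s : ℂ) * z)‖ = ‖LC c z‖ * Real.exp (s * z.re) := by
      intro z
      rw [norm_mul, Complex.norm_exp, Complex.re_ofReal_mul]
    have h1 := pl_half dG (B := N) (C := s) (K := N) (K' := 1) (A := max 0 (A + 1)) (by
      intro w hw
      rw [nG]
      apply mul_le_mul (hNb w hw) _ (Real.exp_pos _).le hN0
      apply Real.exp_le_exp.2
      exact mul_le_mul_of_nonneg_left (Complex.re_le_norm w) hs0.le) (by
      intro x hx
      have hx0 : 0 ≤ x := (le_max_left _ _).trans hx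
      have hxA : A < x := by
        have := (le_max_right 0 (A + 1)).trans hx
        linarith
      rw [nG, Complex.ofReal_re]
      calc ‖LC c x‖ * Real.exp (s * x) ≤ Real.exp (-(ε * x)) * Real.exp (s * x) :=
            mul_le_mul_of_nonneg_right (hd x hxA) (Real.exp_pos _).le
        _ = Real.exp (-(ε * x) + s * x) := by rw [Real.exp_add]
        _ ≤ 1 := by
            apply Real.exp_le_one_iff.2
            nlinarith) (by
      intro x
      rw [nG]
      have h2 : ((x : ℂ) * Complex.I).re = 0 := by simp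
      rw [h2, mul_zero, Real.exp_zero, mul_one]
      exact hNb _ (by rw [h2])) hz
    rw [nG] at h1
    rw [Real.exp_neg, ← div_eq_mul_inv, le_div_iff₀ (Real.exp_pos _)]
    exact h1
  -- the part near zero
  set P := c.restrict (Iio s) with hP
  set Q := c.restrict (Iio s)ᶜ with hQ
  have hPQ : P + Q = c := VectorMeasure.restrict_add_restrict_compl measurableSet_Iio
  have hPv : P.variation = c.variation.restrict (Iio s) :=
    VectorMeasure.variation_restrict measurableSet_Iio
  have hQv : Q.variation = c.variation.restrict (Iio s)ᶜ :=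
    VectorMeasure.variation_restrict measurableSet_Iio.compl
  have hPfin : IsFiniteMeasure P.variation := by rw [hPv]; infer_instance
  have hQfin : IsFiniteMeasure Q.variation := by rw [hQv]; infer_instance
  have hPc : P.variation (Ioo 0 s)ᶜ = 0 := by
    rw [hPv, Measure.restrict_apply measurableSet_Ioo.compl]
    apply measure_mono_null (t := Iic 0) _ (var_Iic_zero hc)
    rintro x ⟨hx1, hx2⟩
    by_contra hcon
    exact hx1 ⟨not_le.1 hcon, hx2⟩
  have hPc1 : P.variation (Ioo 0 1)ᶜ = 0 := conc_mono hPc hs1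
  have hQc1 : Q.variation (Ioo 0 1)ᶜ = 0 := by
    rw [hQv, ← nonpos_iff_eq_zero]
    exact (Measure.restrict_apply_le _ _).trans hc.le
  have hQs : Q.variation (Iio s)ᶜᶜ = 0 := by
    rw [hQv, Measure.restrict_apply measurableSet_Iio.compl.compl, compl_compl,
      inter_compl_self, measure_empty]
  obtain ⟨hp, hhp, -, hLp⟩ := LC_eq_Lap P hPc
  obtain ⟨hq, hhq, -, hLq⟩ := LC_eq_Lap Q hQc1
  set N1 : ℝ := ∫ t, ‖hp t‖ ∂P.variation with hN1
  set N2 : ℝ := ∫ t, ‖hq t‖ ∂Q.variation with hN2
  have hN10 : 0 ≤ N1 := integral_nonneg fun _ => norm_nonneg _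
  have hN20 : 0 ≤ N2 := integral_nonneg fun _ => norm_nonneg _
  have hPb : ∀ z : ℂ, ‖LC P z‖ ≤ (N + N1 + N2) * Real.exp (-(s * z.re)) := by
    intro z
    have he := Real.exp_pos (-(s * z.re))
    rcases le_total z.re 0 with hz | hz
    · rw [hLp]
      refine (Lap_bound (M := Real.exp (-(s * z.re))) hPc hhp (by
        intro t ht
        apply Real.exp_le_exp.2
        nlinarith [ht.2])).trans ?_
      apply mul_le_mul_of_nonneg_right _ he.le
      linarith
    · have h1 : LC P z = LC c z - LC Q z := by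
        rw [← hPQ, LC_add hPc1 hQc1]; ring
      have h2 : ‖LC Q z‖ ≤ N2 * Real.exp (-(s * z.re)) := by
        rw [hLq]
        refine Lap_bound (s := (Iio s)ᶜ) hQs hhq ?_
        intro t ht
        apply Real.exp_le_exp.2
        have : s ≤ t := not_lt.1 ht
        nlinarith
      rw [h1]
      refine (norm_sub_le _ _).trans ((add_le_add (hdec z hz) h2).trans ?_)
      rw [← add_mul]
      apply mul_le_mul_of_nonneg_right _ he.le
      linarith
  have hsC : (s : ℂ) ≠ 0 := by exact_mod_cast hs0.ne'
  have dP : Differentiable ℂ (LC P) := by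
    have : LC P = Lap P.variation hp := funext hLp
    rw [this]; exact Lap_differentiable hPc hhp
  obtain ⟨κ, hκ⟩ := const_mul_exp (W := fun z => LC P (z / s)) (K := N + N1 + N2)
    (dP.comp (differentiable_id.div_const _)) (by
      intro z
      refine (hPb _).trans (le_of_eq ?_)
      congr 2
      rw [Complex.div_ofReal_re]
      field_simp)
  have hκ' : ∀ z, LC P z = κ * Complex.exp (-(s * z)) := by
    intro z
    have := hκ (s * z)
    rw [mul_div_cancel_left₀ _ hsC] at this
    exact this
  have hκ0 : κ = 0 := by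
    have h1 := Lap_tendsto_left hPc hhp
    have h2 : (fun x : ℝ => Lap P.variation hp (-x) * Complex.exp (-(x * s))) = fun _ => κ := by
      funext x
      rw [← hLp, hκ', mul_assoc, ← Complex.exp_add]
      have : -(s * -(x : ℂ)) + -(x * s) = 0 := by ring
      rw [this, Complex.exp_zero, mul_one]
    rw [h2] at h1
    exact tendsto_nhds_unique tendsto_const_nhds h1
  have hP0 : P = 0 := by
    apply eq_zero_of_LC hPc
    intro ξ
    rw [hκ', hκ0, zero_mul]
  have h1 : P.variation univ = 0 := by
    rw [hP0]; simp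
  rw [hPv, Measure.restrict_apply_univ] at h1
  exact h1

theorem fullPow_Iio {a : ComplexMeasure ℝ} [IsFiniteMeasure a.variation] {s : ℝ}
    (hs : a.variation (Iio s) = 0) (n : ℕ) :
    (fullPow a n).variation (Iio ((n + 1) * s)) = 0 := by
  induction n with
  | zero => simpa [fullPow] using hs
  | succ n ih =>
    rw [← nonpos_iff_eq_zero]
    refine (variation_fconv_apply_le _ _ measurableSet_Iio).trans ?_
    have : (fun p : ℝ × ℝ => p.1 + p.2) ⁻¹' (Iio (((n + 1 : ℕ) + 1) * s)) ⊆
        ((Iio s) ×ˢ univ) ∪ (univ ×ˢ (Iio ((n + 1) * s))) := by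
      intro p hp
      by_contra hcon
      simp only [mem_union, mem_prod, mem_univ, and_true, true_and, not_or, mem_Iio,
        not_lt] at hcon
      have h1 : p.1 + p.2 < ((n + 1 : ℕ) + 1) * s := hp
      push_cast at h1
      linarith [hcon.1, hcon.2]
    refine (measure_mono this).trans ((measure_union_le _ _).trans ?_)
    rw [Measure.prod_prod, Measure.prod_prod, hs, ih]
    simp

/-- an element without mass near `0` is nilpotent -/
theorem nilpotent_of_Iio {a : ComplexMeasure ℝ} [IsFiniteMeasure a.variation]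
    (ha : a.restrict (Ioo 0 1) = a) {s : ℝ} (hs0 : 0 < s) (hs : a.variation (Iio s) = 0) :
    ∃ n, 1 ≤ n ∧ measPow a n = 0 := by
  obtain ⟨n, hn⟩ := exists_nat_ge (1 / s)
  refine ⟨n + 1, by omega, ?_⟩
  rw [measPow_eq ha]
  apply restrict_eq_zero_of measurableSet_Ioo
  apply measure_mono_null _ (fullPow_Iio hs n)
  intro x hx
  rw [div_le_iff₀ hs0] at hn
  have := hx.2
  simp only [mem_Iio]
  nlinarith

/-- if all powers of `a` are nonzero then the transform of `a` does not decay exponentially -/
theorem large_of_not_nilpotent {a : ComplexMeasure ℝ} [IsFiniteMeasure a.variation]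
    (ha : a.restrict (Ioo 0 1) = a) (hne : ∀ n, 1 ≤ n → measPow a n ≠ 0) :
    ∀ ε > 0, ∀ A : ℝ, ∃ x : ℝ, A < x ∧ Real.exp (-(ε * x)) ≤ ‖LC a (x : ℂ)‖ := by
  intro ε hε A
  by_contra hcon
  push Not at hcon
  obtain ⟨s, hs0, hs⟩ := support_of_decay (conc_of_restrict ha) hε
    (fun x hx => (hcon x hx).le)
  obtain ⟨n, hn1, hn⟩ := nilpotent_of_Iio ha hs0 hs
  exact hne n hn1 hn

/-- exponential moments of the variation of a full power -/
theorem lintegral_fullPow {a : ComplexMeasure ℝ} [IsFiniteMeasure a.variation] (L : ℝ) (n : ℕ) :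
    ∫⁻ t, ENNReal.ofReal (Real.exp (-(L * t))) ∂(fullPow a n).variation ≤
      (∫⁻ t, ENNReal.ofReal (Real.exp (-(L * t))) ∂a.variation) ^ (n + 1) := by
  have hm : Measurable fun t : ℝ => ENNReal.ofReal (Real.exp (-(L * t))) := by fun_prop
  induction n with
  | zero => simp [fullPow]
  | succ n ih =>
    calc ∫⁻ t, ENNReal.ofReal (Real.exp (-(L * t))) ∂(fullPow a (n + 1)).variation
        ≤ ∫⁻ t, ENNReal.ofReal (Real.exp (-(L * t)))
            ∂((a.variation.prod (fullPow a n).variation).map (fun p : ℝ × ℝ => p.1 + p.2)) :=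
          lintegral_mono' (variation_fconv_le a (fullPow a n)) le_rfl
      _ = ∫⁻ p, ENNReal.ofReal (Real.exp (-(L * p.1))) * ENNReal.ofReal (Real.exp (-(L * p.2)))
            ∂(a.variation.prod (fullPow a n).variation) := by
          rw [lintegral_map hm (by fun_prop)]
          congr 1
          funext p
          rw [← ENNReal.ofReal_mul (Real.exp_pos _).le, ← Real.exp_add]
          congr 2
          ring
      _ = (∫⁻ t, ENNReal.ofReal (Real.exp (-(L * t))) ∂a.variation) *
          ∫⁻ t, ENNReal.ofReal (Real.exp (-(L * t))) ∂(fullPow a n).variation :=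
          lintegral_prod_mul hm.aemeasurable hm.aemeasurable
      _ ≤ (∫⁻ t, ENNReal.ofReal (Real.exp (-(L * t))) ∂a.variation) *
          (∫⁻ t, ENNReal.ofReal (Real.exp (-(L * t))) ∂a.variation) ^ (n + 1) := by
          gcongr
      _ = _ := by ring

theorem lintegral_exp_small {m : Measure ℝ} [IsFiniteMeasure m] (hm : m (Ioo 0 1)ᶜ = 0) {ℓ : ℝ}
    (hℓ : 0 < ℓ) :
    ∃ L : ℝ, 0 ≤ L ∧ ∫⁻ t, ENNReal.ofReal (Real.exp (-(L * t))) ∂m ≤ ENNReal.ofReal ℓ := by
  have h2 : ∀ᵐ t ∂m, t ∈ Ioo (0 : ℝ) 1 := by rw [ae_iff]; exact hm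
  have key : Tendsto (fun L : ℝ => ∫⁻ t, ENNReal.ofReal (Real.exp (-(L * t))) ∂m) atTop
      (𝓝 (∫⁻ t, 0 ∂m)) := by
    apply tendsto_lintegral_filter_of_dominated_convergence (fun _ => 1)
    · filter_upwards with L
      fun_prop
    · filter_upwards [eventually_ge_atTop 0] with L hL
      filter_upwards [h2] with t ht
      rw [← ENNReal.ofReal_one]
      apply ENNReal.ofReal_le_ofReal
      apply Real.exp_le_one_iff.2
      nlinarith [ht.1]
    · simp
    · filter_upwards [h2] with t ht
      have h3 : Tendsto (fun L : ℝ => Real.exp (-(L * t))) atTop (𝓝 0) := by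
        apply Real.tendsto_exp_neg_atTop_nhds_zero.comp
        exact tendsto_id.atTop_mul_const ht.1
      have := ENNReal.tendsto_ofReal h3
      rwa [ENNReal.ofReal_zero] at this
  rw [lintegral_zero] at key
  have h3 := (key.eventually (ge_mem_nhds (ENNReal.ofReal_pos.2 hℓ))).and
    (eventually_ge_atTop 0)
  obtain ⟨L, hL1, hL2⟩ := h3.exists
  exact ⟨L, hL2, hL1⟩

/-- the norms of the powers decay faster than every exponential -/
theorem norm_pow_small {a : ComplexMeasure ℝ} [IsFiniteMeasure a.variation]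
    (ha : a.restrict (Ioo 0 1) = a) {ℓ : ℝ} (hℓ : 0 < ℓ) :
    ∃ C : ℝ, 0 < C ∧ ∀ n, (measPow a (n + 1)).variation univ ≤ ENNReal.ofReal (C * ℓ ^ (n + 1)) := by
  obtain ⟨L, hL0, hL⟩ := lintegral_exp_small (conc_of_restrict ha) hℓ
  refine ⟨Real.exp L, Real.exp_pos L, fun n => ?_⟩
  rw [measPow_eq ha, VectorMeasure.variation_restrict measurableSet_Ioo,
    Measure.restrict_apply_univ]
  have h1 : (fullPow a n).variation (Ioo 0 1) ≤
      ENNReal.ofReal (Real.exp L) *
        ∫⁻ t, ENNReal.ofReal (Real.exp (-(L * t))) ∂(fullPow a n).variation := by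
    rw [← lintegral_const_mul _ (by fun_prop)]
    rw [← lintegral_indicator_one measurableSet_Ioo]
    apply lintegral_mono
    intro t
    by_cases ht : t ∈ Ioo (0 : ℝ) 1
    · simp only
      rw [indicator_of_mem ht, Pi.one_apply, ← ENNReal.ofReal_mul (Real.exp_pos _).le,
        ← Real.exp_add, ← ENNReal.ofReal_one]
      apply ENNReal.ofReal_le_ofReal
      apply Real.one_le_exp
      nlinarith [ht.2]
    · rw [indicator_of_notMem ht]
      exact zero_le
  refine h1.trans ?_
  rw [ENNReal.ofReal_mul (Real.exp_pos _).le, ENNReal.ofReal_pow hℓ.le]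
  gcongr
  exact (lintegral_fullPow L n).trans (pow_le_pow_left₀ zero_le hL _)

end Pool.Agent.Y279.VT
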