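import Mathlib
import Pool.Agent.Y279.VT.Dec

set_option autoImplicit false

/-!
# The main theorem: the equality `‖a^{2n}‖ = ‖a^n‖ ^ 2` holds only for finitely many `n`
-/

namespace Pool.Agent.Y279.VT

open MeasureTheory Set Filter Topology
open scoped ENNReal NNReal
open Pool.Agent.Results.MP_81f94f_an.FlatRunsNotNormSequence

/-- the transform of a complex measure concentrated on a bounded interval `(0,R)` and its
derivative -/
theorem LC_data (c : ComplexMeasure ℝ) [IsFiniteMeasure c.variation] {R : ℝ}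
    (hR : c.variation (Ioo 0 R)ᶜ = 0) :
    ∃ (D : ℂ → ℂ) (N : ℝ), 0 ≤ N ∧ (∀ z, HasDerivAt (LC c) (D z) z) ∧ Differentiable ℂ D ∧
      (∀ (s : Set ℝ), c.variation sᶜ = 0 → ∀ (z : ℂ) (M : ℝ),
        (∀ t ∈ s, Real.exp (-z.re * t) ≤ M) → 0 ≤ M → ‖LC c z‖ ≤ N * M ∧ ‖D z‖ ≤ N * M) ∧
      Tendsto (fun x : ℝ => LC c (-x) * Complex.exp (-(x * R))) atTop (𝓝 0) ∧
      Tendsto (fun x : ℝ => D (-x) * Complex.exp (-(x * R))) atTop (𝓝 0) := by
  obtain ⟨h, hh, -, hL⟩ := LC_eq_Lap c hR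
  have eL : LC c = Lap c.variation h := funext hL
  have th := tmul_integrable hR hh
  set n1 := ∫ t, ‖h t‖ ∂c.variation with hn1
  set n2 := ∫ t : ℝ, ‖(-t : ℂ) * h t‖ ∂c.variation with hn2
  have p1 : 0 ≤ n1 := integral_nonneg fun _ => norm_nonneg _
  have p2 : 0 ≤ n2 := integral_nonneg fun _ => norm_nonneg _
  refine ⟨Lap c.variation (fun t : ℝ => (-t : ℂ) * h t), n1 + n2, by positivity, ?_,
    Lap_differentiable hR th, ?_, ?_, ?_⟩
  · intro z
    rw [eL]
    exact Lap_hasDeriv hR hh z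
  · intro s hs z M hM hM0
    rw [eL]
    refine ⟨(Lap_bound hs hh hM).trans ?_, (Lap_bound hs th hM).trans ?_⟩
    · apply mul_le_mul_of_nonneg_right _ hM0
      linarith
    · apply mul_le_mul_of_nonneg_right _ hM0
      linarith
  · rw [eL]
    exact Lap_tendsto_left hR hh
  · exact Lap_tendsto_left hR th

theorem restrict_null {c : ComplexMeasure ℝ} {s t : Set ℝ} (h : c.variation t = 0) :
    (c.restrict s).variation t = 0 := by
  rw [← nonpos_iff_eq_zero]
  refine (VectorMeasure.variation_restrict_le _).trans ?_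
  refine (Measure.restrict_apply_le _ _).trans ?_
  rw [h]

/-- If two (truncated) powers of `a` live on `(0,1/2)`, then their transforms satisfy
`P ^ n = Q ^ m`. -/
theorem pow_eq {a : ComplexMeasure ℝ} [IsFiniteMeasure a.variation]
    (ha : a.restrict (Ioo 0 1) = a) (hne : ∀ n, 1 ≤ n → measPow a n ≠ 0) {k j : ℕ}
    (hk : (measPow a (k + 1)).variation (Ici (1 / 2)) = 0)
    (hj : (measPow a (j + 1)).variation (Ici (1 / 2)) = 0) (z : ℂ) :
    LC (measPow a (k + 1)) z ^ (j + 1) = LC (measPow a (j + 1)) z ^ (k + 1) := by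
  have hc := conc_of_restrict ha
  rw [measPow_eq ha] at hk hj ⊢
  rw [measPow_eq ha]
  set A := fullPow a k with hA
  set B := fullPow a j with hB
  have hAc := fullPow_conc hc k
  have hBc := fullPow_conc hc j
  have hPc : (A.restrict (Ioo 0 1)).variation (Ioo 0 (1 / 2))ᶜ = 0 :=
    half_conc (var_Iic_zero (restrict_null hAc)) hk
  have hQc : (B.restrict (Ioo 0 1)).variation (Ioo 0 (1 / 2))ᶜ = 0 :=
    half_conc (var_Iic_zero (restrict_null hBc)) hj
  have hCc : (A.restrict (Ici 1)).variation (Ioo 0 ((k : ℝ) + 1))ᶜ = 0 := restrict_null hAc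
  have hEc : (B.restrict (Ici 1)).variation (Ioo 0 ((j : ℝ) + 1))ᶜ = 0 := restrict_null hBc
  have hC1 : (A.restrict (Ici 1)).variation (Ici 1)ᶜ = 0 := by
    rw [compl_Ici]; exact var_restrict_Ici A
  have hE1 : (B.restrict (Ici 1)).variation (Ici 1)ᶜ = 0 := by
    rw [compl_Ici]; exact var_restrict_Ici B
  obtain ⟨F', N1, p1, dF, -, bF, -, -⟩ := LC_data a hc
  obtain ⟨P', N2, p2, dP, dP', bP, tP, tP'⟩ := LC_data _ hPc
  obtain ⟨Q', N3, p3, dQ, dQ', bQ, -, -⟩ := LC_data _ hQc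
  obtain ⟨C', N4, p4, dC, -, bC, -, -⟩ := LC_data _ hCc
  obtain ⟨E', N5, p5, dE, -, bE, -, -⟩ := LC_data _ hEc
  set K := N1 + N2 + N3 + N4 + N5 with hK
  have hleft : ∀ {z : ℂ}, z.re ≤ 0 → ∀ t ∈ Ioo (0 : ℝ) (1 / 2),
      Real.exp (-z.re * t) ≤ Real.exp (-z.re / 2) := by
    intro z hz t ht
    apply Real.exp_le_exp.2
    have := ht.2
    nlinarith
  have hright : ∀ {z : ℂ}, 0 ≤ z.re → ∀ t ∈ Ioo (0 : ℝ) (1 / 2), Real.exp (-z.re * t) ≤ 1 := by
    intro z hz t ht
    apply Real.exp_le_one_iff.2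
    have := ht.1
    nlinarith
  have hright1 : ∀ {z : ℂ}, 0 ≤ z.re → ∀ t ∈ Ioo (0 : ℝ) 1, Real.exp (-z.re * t) ≤ 1 := by
    intro z hz t ht
    apply Real.exp_le_one_iff.2
    have := ht.1
    nlinarith
  have hright' : ∀ {z : ℂ}, 0 ≤ z.re → ∀ t ∈ Ici (1 : ℝ),
      Real.exp (-z.re * t) ≤ Real.exp (-z.re) := by
    intro z hz t ht
    apply Real.exp_le_exp.2
    have : (1 : ℝ) ≤ t := ht
    nlinarith
  have e0 : ∀ z : ℂ, 0 ≤ Real.exp (-z.re) := fun z => (Real.exp_pos _).le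
  have e2 : ∀ z : ℂ, 0 ≤ Real.exp (-z.re / 2) := fun z => (Real.exp_pos _).le
  have up : ∀ {N M y : ℝ}, y ≤ N * M → N ≤ K → 0 ≤ M → y ≤ K * M := by
    intro N M y h1 h2 h3
    exact h1.trans (mul_le_mul_of_nonneg_right h2 h3)
  have up1 : ∀ {N y : ℝ}, y ≤ N * 1 → N ≤ K → y ≤ K := by
    intro N y h1 h2
    linarith
  refine wron (F := LC a) (P := LC (A.restrict (Ioo 0 1))) (Q := LC (B.restrict (Ioo 0 1)))
    (C := LC (A.restrict (Ici 1))) (E := LC (B.restrict (Ici 1))) (m := k) (n := j) (K := K)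
    dF dP dQ dC dE dP' dQ' ?_ ?_ ?_ ?_ ?_ ?_ ?_ ?_ ?_ ?_ ?_ ?_ ?_ ?_ ?_ ?_ ?_ ?_
    (large_of_not_nilpotent ha hne) z
  · intro z
    rw [← LC_fullPow hc k, ← LC_add (restrict_null hAc) hCc,
      ← restrict_add_split (var_Iic_zero hAc)]
  · intro z
    rw [← LC_fullPow hc j, ← LC_add (restrict_null hBc) hEc,
      ← restrict_add_split (var_Iic_zero hBc)]
  · intro z hz
    exact up (bP _ hPc z _ (hleft hz) (e2 z)).1 (by linarith) (e2 z)
  · intro z hz
    exact up (bP _ hPc z _ (hleft hz) (e2 z)).2 (by linarith) (e2 z)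
  · intro z hz
    exact up (bQ _ hQc z _ (hleft hz) (e2 z)).1 (by linarith) (e2 z)
  · intro z hz
    exact up (bQ _ hQc z _ (hleft hz) (e2 z)).2 (by linarith) (e2 z)
  · intro z hz
    exact up1 (bF _ hc z 1 (hright1 hz) zero_le_one).1 (by linarith)
  · intro z hz
    exact up1 (bF _ hc z 1 (hright1 hz) zero_le_one).2 (by linarith)
  · intro z hz
    exact up1 (bP _ hPc z 1 (hright hz) zero_le_one).1 (by linarith)
  · intro z hz
    exact up1 (bP _ hPc z 1 (hright hz) zero_le_one).2 (by linarith)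
  · intro z hz
    exact up1 (bQ _ hQc z 1 (hright hz) zero_le_one).1 (by linarith)
  · intro z hz
    exact up1 (bQ _ hQc z 1 (hright hz) zero_le_one).2 (by linarith)
  · intro z hz
    exact up (bC _ hC1 z _ (hright' hz) (e0 z)).1 (by linarith) (e0 z)
  · intro z hz
    exact up (bC _ hC1 z _ (hright' hz) (e0 z)).2 (by linarith) (e0 z)
  · intro z hz
    exact up (bE _ hE1 z _ (hright' hz) (e0 z)).1 (by linarith) (e0 z)
  · intro z hz
    exact up (bE _ hE1 z _ (hright' hz) (e0 z)).2 (by linarith) (e0 z)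
  · refine tP.congr fun x => ?_
    congr 2
    push_cast
    ring
  · refine tP'.congr fun x => ?_
    congr 2
    push_cast
    ring

theorem truncConv_self {a : ComplexMeasure ℝ} [IsFiniteMeasure a.variation]
    (ha : a.restrict (Ioo 0 1) = a) (k : ℕ) :
    truncConv (measPow a (k + 1)) (measPow a (k + 1)) = measPow a (2 * (k + 1)) := by
  rw [measPow_eq ha, truncConv_eq (conc_of_restrict ha),
    show 2 * (k + 1) = (k + k + 1) + 1 by ring, measPow_eq ha]

instance measPow_fin (a : ComplexMeasure ℝ) [IsFiniteMeasure a.variation] (n : ℕ) :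
    IsFiniteMeasure (measPow a n).variation := by
  match n with
  | 0 => rw [measPow]; simp only [VectorMeasure.variation_zero]; infer_instance
  | 1 => rw [measPow]; infer_instance
  | (n + 2) =>
    have := measPow_fin a (n + 1)
    rw [measPow, truncConv_eq_restrict, VectorMeasure.variation_restrict measurableSet_Ioo]
    infer_instance

/-- the norms are submultiplicative -/
theorem norm_double_le {a : ComplexMeasure ℝ} [IsFiniteMeasure a.variation]
    (ha : a.restrict (Ioo 0 1) = a) (k : ℕ) :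
    (measPow a (2 * (k + 1))).variation univ ≤ ((measPow a (k + 1)).variation univ) ^ 2 := by
  rw [← truncConv_self ha]
  unfold truncConv
  rw [VectorMeasure.variation_restrict measurableSet_Ioo, Measure.restrict_apply_univ]
  refine (variation_fconv_apply_le _ _ measurableSet_Ioo).trans ?_
  refine (measure_mono (subset_univ _)).trans ?_
  rw [← univ_prod_univ, Measure.prod_prod, sq]

/-- **Main theorem.** If all powers of `a ∈ M(0,1)` are nonzero, then the equality
`‖a^{2n}‖ = ‖a^n‖ ^ 2` holds only for finitely many `n`. -/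
theorem finite_flat {a : ComplexMeasure ℝ} [IsFiniteMeasure a.variation]
    (ha : a.restrict (Ioo 0 1) = a) (hne : ∀ n, 1 ≤ n → measPow a n ≠ 0) :
    {n : ℕ | 1 ≤ n ∧ (measPow a (2 * n)).variation univ =
      ((measPow a n).variation univ) ^ 2}.Finite := by
  by_contra hinf
  rw [Set.not_finite] at hinf
  have hhalf : ∀ n ∈ {n : ℕ | 1 ≤ n ∧ (measPow a (2 * n)).variation univ =
      ((measPow a n).variation univ) ^ 2}, (measPow a n).variation (Ici (1 / 2)) = 0 := by
    rintro n ⟨hn1, hn2⟩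
    obtain ⟨k, rfl⟩ : ∃ k, n = k + 1 := ⟨n - 1, by omega⟩
    apply supp_half
    rw [truncConv_self ha]
    exact hn2
  obtain ⟨m, hm⟩ := hinf.nonempty
  have hm1 := hm.1
  obtain ⟨k, rfl⟩ : ∃ k, m = k + 1 := ⟨m - 1, by omega⟩
  have hmc : (measPow a (k + 1)).variation (Ioo 0 1)ᶜ = 0 := by
    rw [measPow_eq ha, VectorMeasure.variation_restrict measurableSet_Ioo,
      Measure.restrict_apply measurableSet_Ioo.compl]
    simp
  apply hne (k + 1) (by omega)
  apply eq_zero_of_LC hmc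
  intro ξ
  by_contra hpne
  set p : ℝ := ‖LC (measPow a (k + 1)) (-(ξ * Complex.I))‖ with hp
  have hp0 : 0 < p := norm_pos_iff.2 hpne
  set ℓ : ℝ := min 1 (p / 2) with hℓ
  have hℓ0 : 0 < ℓ := lt_min one_pos (by linarith)
  have hℓ1 : ℓ ≤ 1 := min_le_left _ _
  have hℓp : ℓ ≤ p / 2 := min_le_right _ _
  obtain ⟨C, hC0, hC⟩ := norm_pow_small ha hℓ0
  -- choose a large exceptional `n`
  obtain ⟨N, hN⟩ := pow_unbounded_of_one_lt (C ^ (k + 1)) (one_lt_two)
  obtain ⟨n, hn, hNn⟩ := hinf.exists_gt N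
  have hn1 := hn.1
  obtain ⟨j, rfl⟩ : ∃ j, n = j + 1 := ⟨n - 1, by omega⟩
  have h1 := pow_eq ha hne (hhalf _ hm) (hhalf _ hn) (-(ξ * Complex.I))
  have h2 : p ^ (j + 1) = ‖LC (measPow a (j + 1)) (-(ξ * Complex.I))‖ ^ (k + 1) := by
    rw [hp, ← norm_pow, h1, norm_pow]
  have h3 : ‖LC (measPow a (j + 1)) (-(ξ * Complex.I))‖ ≤ C * ℓ ^ (j + 1) := by
    refine (LC_norm_le (c := measPow a (j + 1)) ξ).trans ?_
    rw [Measure.real]
    exact ENNReal.toReal_le_of_le_ofReal (by positivity) (hC j)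
  have h4 : p ^ (j + 1) ≤ C ^ (k + 1) * (p / 2) ^ (j + 1) := by
    calc p ^ (j + 1) ≤ (C * ℓ ^ (j + 1)) ^ (k + 1) := by
          rw [h2]; exact pow_le_pow_left₀ (norm_nonneg _) h3 _
      _ = C ^ (k + 1) * (ℓ ^ (k + 1)) ^ (j + 1) := by
          rw [mul_pow, ← pow_mul, ← pow_mul, mul_comm (j + 1)]
      _ ≤ C ^ (k + 1) * (p / 2) ^ (j + 1) := by
          gcongr
          calc ℓ ^ (k + 1) ≤ ℓ ^ 1 := pow_le_pow_of_le_one hℓ0.le hℓ1 (by omega)
            _ = ℓ := pow_one _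
            _ ≤ p / 2 := hℓp
  have h5 : (2 : ℝ) ^ (j + 1) ≤ C ^ (k + 1) := by
    have hpp : 0 < (p / 2) ^ (j + 1) := by positivity
    rw [← mul_le_mul_iff_left₀ hpp, ← mul_pow]
    have : 2 * (p / 2) = p := by ring
    rw [this]
    exact h4
  have h6 : (2 : ℝ) ^ N ≤ 2 ^ (j + 1) := pow_le_pow_right₀ one_le_two hNn.le
  linarith

/-- strict inequality for large `n` -/
theorem eventually_strict {a : ComplexMeasure ℝ} [IsFiniteMeasure a.variation]
    (ha : a.restrict (Ioo 0 1) = a) (hne : ∀ n, 1 ≤ n → measPow a n ≠ 0) :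
    ∃ N : ℕ, ∀ n ≥ N, (measPow a (2 * n)).variation univ <
      ((measPow a n).variation univ) ^ 2 := by
  obtain ⟨M, hM⟩ := (finite_flat ha hne).bddAbove
  refine ⟨M + 1, fun n hn => ?_⟩
  obtain ⟨k, rfl⟩ : ∃ k, n = k + 1 := ⟨n - 1, by omega⟩
  refine lt_of_le_of_ne (norm_double_le ha k) fun h => ?_
  have := hM (show k + 1 ∈ _ from ⟨by omega, h⟩)
  omega

end Pool.Agent.Y279.VT
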